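import Pool.Agent.R396.XQ.Axis
import Pool.Agent.R396.XQ.RealA
import Pool.Agent.R396.XQ.KK

set_option autoImplicit false

/-!
# MP_d6a497_nt, Q1: monotonicity of `t ^ (w - 1) X_{w,1}(i t)`
-/

namespace Pool.Agent.Results.MP_d6a497_nt.Monotone

open UpperHalfPlane hiding I
open Pool.Agent.R396.XQ

/-- For every even `w ≥ 6` other than `8` and `10` there is exactly one normalised depth-one
extremal quasimodular form `X` of weight `w`, it is real on the imaginary axis, and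
`t ^ (w - 1) X(i t)` is decreasing on `(0, ∞)`. -/
theorem result (w : ℕ) (hw : Even w) (h6 : 6 ≤ w) (h8 : w ≠ 8) (h10 : w ≠ 10) :
    ∃ X : ℍ → ℂ, IsExtremal w X ∧ (∀ Y, IsExtremal w Y → Y = X) ∧
      (∀ t : ℝ, 0 < t → (X (ofComplex (Complex.I * (t : ℂ)))).im = 0) ∧
      ∀ s t : ℝ, 0 < s → s < t →
        t ^ (w - 1) * (X (ofComplex (Complex.I * (t : ℂ)))).re ≤
          s ^ (w - 1) * (X (ofComplex (Complex.I * (s : ℂ)))).re := by
  obtain ⟨X, h1, h2, h3, h4⟩ :=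
    main jobAx jobReal jobOrd (jobKK jobOrd) w hw h6 h8 h10
  exact ⟨X, h1, h2, h3, fun s t hs hst => h4 (Set.mem_Ioi.2 hs) (Set.mem_Ioi.2 (hs.trans hst)) hst.le⟩

end Pool.Agent.Results.MP_d6a497_nt.Monotone
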